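import Pool.Agent.Helper10K1.BC.Signs

/-!
# The Singer-Hopf inequality for the Poincaré duality subgroups of right-angled Coxeter groups

Let `K` be a Poincaré duality group of dimension `2 d` of type FL (for example the fundamental group of a closed
aspherical `2 d`-manifold), which is isomorphic to a subgroup, of finite or infinite index, of the kernel `Γ` of
`W → (ℤ/2)^V`, `W` the right-angled Coxeter group of a flag complex with the set `V` of vertices. We prove the
Singer-Hopf inequality `(-1)^d χ(K) ≥ 0` if the flag complex is

(a) the subdivision of a finite simplicial complex `X`, embedded in the sphere of dimension `2 d`, with coloured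
vertices, in which only the monochromatic simplices are subdivided, where the colours have costs with sum at most
`d + 1` (`Cost`); for example every complex `X` in this sphere which is coloured by `d + 1` colours without
monochromatic triangles, the monochromatic edges being subdivided by their middle points;

(b) the barycentric subdivision of a regular cell complex `X`, embedded in the sphere of dimension `2 d`, with
`dim X ≤ d + 1`, or with `dim X ≤ d + 2` and every cell of dimension `d + 1` contained in exactly two cells. For
example: `d = 2` and any regular cell decomposition of a sphere of dimension three or four (closed aspherical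
four-manifolds in closed aspherical five-manifolds), or `d = 3` and any regular cell decomposition of the sphere of
dimension five.

In all cases there are no other assumptions on the position of `K` in `Γ`; `W` can be much larger than `K`. The starting
result `CodimensionOneSubgroups` gives for every flag homology sphere the existence of an unspecified iterated edge
subdivision with this property. The proof uses the vanishing of the `L²`-Betti numbers of all the subgroups of `Γ`
above the degree `d` (`MP_4f4d9f_gt.BarycentricCovers`, `MP_4f4d9f_gt.ColouredCovers`).
-/

set_option autoImplicit false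

namespace Pool.Agent.Results.MP_9d0d86_gt.DualitySubgroupsOfCoxeterGroups

open Pool.Agent.W907.SG Pool.Agent.W907.SM Pool.Agent.W461.SGN Pool.Agent.N496.CV Pool.Agent.R782.Bal
open Pool.Agent.Helper10K1.BC

/-- Let `K` be a subgroup, of arbitrary index, of the kernel of the homomorphism `th G` from the right-angled Coxeter
group `W G` to the vector space over the field with two elements with the basis `V`, and let `K` be a Poincaré duality
group of dimension `2 d` of type FL (`PD K (2 * d)`). Then `(-1)^d χ(K) ≥ 0`, where `χ(K)` is computed by any
resolution `C` of `ℤ` by finitely generated free modules of finite length `q`, in each of the following cases.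

(a) `G = cs X col` is the subdivision of the monochromatic simplices of a simplicial complex `X` which is embedded in the
sphere of dimension `2 d` (`EmbX`) and whose vertices have a colouring with costs of sum at most `d + 1` (`Cost`).
(b) `G = cmp r` is the comparability graph of the cells of a regular cell complex (`Cells`) which is embedded in the
sphere of dimension `2 d`, `d ≥ 1` (`Emb`), all cells being of dimension at most `d + 1`; or of dimension at most
`d + 2`, every cell of dimension `d + 1` being contained in exactly two others (`Closed`). -/
theorem result :
    (∀ (d N k : ℕ) (X : Finset (Finset (Fin N))) (col : Fin N → Fin k),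
      (∀ σ ∈ X, ∀ τ : Finset (Fin N), τ ⊆ σ → τ ∈ X) → Cost d X col → EmbX d X col →
      ∀ K : Subgroup (W (cs X col)), K ≤ (th (cs X col)).ker → Nonempty (PD K (2 * d)) →
        ∀ (C : V7N.FreeRes K) (q : ℕ), (∀ i, q < i → C.r i = 0) →
          0 ≤ (-1 : ℤ) ^ d * ∑ i ∈ Finset.range (q + 1), (-1 : ℤ) ^ i * (C.r i : ℤ)) ∧
    ∀ (d : ℕ) (V : Type) [Fintype V] (r : V → V → Prop) (dim : V → ℕ), 1 ≤ d → Cells r dim →
      Emb d (cmp r) → ((∀ v, dim v ≤ d + 1) ∨ Closed r dim (d + 1)) →
      ∀ K : Subgroup (W (cmp r)), K ≤ (th (cmp r)).ker → Nonempty (PD K (2 * d)) →
        ∀ (C : V7N.FreeRes K) (q : ℕ), (∀ i, q < i → C.r i = 0) →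
          0 ≤ (-1 : ℤ) ^ d * ∑ i ∈ Finset.range (q + 1), (-1 : ℤ) ^ i * (C.r i : ℤ) := by
  classical
  refine ⟨fun d N k X col hX hc hE K hK hP C q hq => sign_cols hX hc hE K hK hP C q hq, ?_⟩
  intro d V _ r dim hd hC hE h K hK hP C q hq
  have : LinearOrder V := LinearOrder.lift' (Fintype.equivFin V) (Fintype.equivFin _).injective
  exact sign_cells hd hC h hE K hK hP C q hq

end Pool.Agent.Results.MP_9d0d86_gt.DualitySubgroupsOfCoxeterGroups
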