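import Pool.Agent.Helper10K1.RT.Basic

/-!
# The Singer-Hopf inequality for manifolds cut into manifolds with right-angled corners

Let a closed manifold `M` of dimension `2 m` be cut into compact manifolds with right-angled corners,
such that the link of every face is a flag homology sphere (for example: the pieces are compact
hyperbolic manifolds with totally geodesic right-angled faces, as in the strict hyperbolization of
cubical manifolds of Charney and Davis). Let `p^` be the closed manifold of dimension `dim p` which is
made of `2^f` copies of the face `p` by reflection in its `f` facets (in the example, a closed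
hyperbolic manifold). If the closed manifolds `p^` of even dimension satisfy the Singer-Hopf
inequality and the links of the faces `p` of even dimension are in the class `MQ` of the starting
files, then `M` satisfies the Singer-Hopf inequality.

The proof: the Euler characteristic of `M` is the sum over the faces `p` of the products of the
orbifold Euler characteristic of `p` and of the Charney-Davis number of the link of `p`; the first
factor vanishes if the dimension is odd.
-/

set_option autoImplicit false

namespace Pool.Agent.Results.MP_9d0d86_gt.RightAngledTilings

open Pool.Agent.W907.SG Pool.Agent.Helper10K1.RT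
open Pool.Agent.TH652.Above (HSph)
open Pool.Agent.R703.MO (MQ charney_davis_MQ)

/-- `P` is the poset of the faces of a closed homology manifold of dimension `n` which is cut into
manifolds with right-angled corners, `dim` is the dimension of the faces: the faces which contain a
given face `p`, ordered by inclusion, correspond to the simplices of the flag complex of a finite
graph, `p` itself to the empty simplex and the faces of dimension `dim p + k` to the simplices with
`k` vertices, and this flag complex (the link of `p`) is a real homology manifold with the real
homology of the sphere of dimension `n - dim p - 1`. -/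
def Tiling (n : ℕ) (P : Type) [Fintype P] [PartialOrder P] (dim : P → ℕ) : Prop :=
  ∀ p : P, dim p ≤ n ∧ ∃ (V : Type) (_ : Fintype V) (_ : LinearOrder V) (G : SimpleGraph V),
    IsFaceLink dim p G ∧ HSph (n - dim p) G

open scoped Classical in
/-- The relations of the Euler characteristics `X p` of the closed faces. The face `q` is a compact
manifold with boundary, so by duality its interior has the Euler characteristic (with compact
supports) `(-1)^(dim q) X q`; and a closed face is the disjoint union of the interiors of its
faces. -/
def IsEuler {P : Type} [Fintype P] [PartialOrder P] (dim : P → ℕ) (X : P → ℤ) : Prop :=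
  ∀ p : P, X p = ∑ q ∈ Finset.univ.filter (fun q : P => q ≤ p), (-1) ^ dim q * X q

/-- the Euler characteristic of the closed manifold: the sum of the Euler characteristics (with
compact supports) of the interiors of all the faces -/
def chiM {P : Type} [Fintype P] (dim : P → ℕ) (X : P → ℤ) : ℤ := ∑ p : P, (-1) ^ dim p * X p

open scoped Classical in
/-- the number of facets of the face `p` -/
noncomputable def facets {P : Type} [Fintype P] [PartialOrder P] (dim : P → ℕ) (p : P) : ℕ :=
  (Finset.univ.filter fun q : P => q ≤ p ∧ dim q + 1 = dim p).card

open scoped Classical in
/-- The Euler characteristic of the closed manifold `p^` of dimension `dim p` which is made of `2^f`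
copies of the face `p` by reflection in its `f` facets: a face of codimension `c` of `p` has
`2^(f - c)` copies in `p^`. -/
noncomputable def chiMirror {P : Type} [Fintype P] [PartialOrder P] (dim : P → ℕ) (X : P → ℤ) (p : P) :
    ℚ :=
  ∑ q ∈ Finset.univ.filter (fun q : P => q ≤ p),
    2 ^ facets dim p / 2 ^ (dim p - dim q) * ((-1 : ℚ) ^ dim q * X q)

lemma chiMirror_eq {P : Type} [Fintype P] [PartialOrder P] (dim : P → ℕ) (X : P → ℤ) (p : P) :
    chiMirror dim X p = 2 ^ facets dim p * orb dim X p := by
  classical
  unfold chiMirror orb
  rw [Finset.mul_sum]
  refine Finset.sum_congr rfl fun q _ => ?_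
  rw [one_div, inv_pow]
  ring

/-- **The Singer-Hopf inequality for closed manifolds cut into manifolds with right-angled corners.**
The faces are the elements of `P`, `X p` is the Euler characteristic of the closed face `p`. If the
closed manifolds `p^` (`p` a face of even dimension) satisfy the Singer-Hopf inequality, and the
links of those faces `p` of even dimension for which the Euler characteristic of `p^` is not zero
belong to the class `MQ`, then the manifold satisfies the Singer-Hopf inequality. -/
theorem result (m : ℕ) (P : Type) [Fintype P] [PartialOrder P] (dim : P → ℕ)
    (hT : Tiling (2 * m) P dim) (X : P → ℤ) (hX : IsEuler dim X)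
    (hF : ∀ p : P, Even (dim p) → 0 ≤ (-1) ^ (dim p / 2) * chiMirror dim X p)
    (hL : ∀ p : P, Even (dim p) → chiMirror dim X p ≠ 0 →
      ∃ (V : Type) (_ : Fintype V) (_ : LinearOrder V) (G : SimpleGraph V),
        IsFaceLink dim p G ∧ HSph (2 * m - dim p) G ∧ MQ ((2 * m - dim p) / 2 + 1) G) :
    0 ≤ (-1) ^ m * chiM dim X := by
  classical
  have hlink : ∀ p : P, ∃ (V : Type) (_ : Fintype V) (G : SimpleGraph V), IsFaceLink dim p G := by
    intro p
    obtain ⟨-, V, hV, _, G, hG, -⟩ := hT p
    exact ⟨V, hV, G, hG⟩
  have h1 : (0 : ℚ) ≤ (-1) ^ m * ((chiM dim X : ℤ) : ℚ) := by
    unfold chiM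
    rw [formula hlink X, Finset.mul_sum]
    refine Finset.sum_nonneg fun p _ => ?_
    rcases Nat.even_or_odd (dim p) with he | ho
    · by_cases h0 : chiMirror dim X p = 0
      · rw [chiMirror_eq] at h0
        have h2 : orb dim X p = 0 := by
          rcases mul_eq_zero.1 h0 with h | h
          · exact absurd h (by positivity)
          · exact h
        rw [h2, zero_mul, mul_zero]
      · obtain ⟨V, _, _, G, hG, hS, hM⟩ := hL p he h0
        obtain ⟨k, hk⟩ := he
        have hle := (hT p).1
        have h3 : 2 * m - dim p = 2 * (m - k) := by omega
        have h4 : dim p / 2 = k := by omega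
        rw [h3] at hS hM
        rw [show 2 * (m - k) / 2 = m - k by omega] at hM
        have h5 := charney_davis_MQ hS hM
        have h6 := hF p ⟨k, hk⟩
        rw [h4, chiMirror_eq] at h6
        have h7 : 0 ≤ (-1 : ℚ) ^ k * orb dim X p := by
          have h8 : (-1 : ℚ) ^ k * (2 ^ facets dim p * orb dim X p) =
              2 ^ facets dim p * ((-1 : ℚ) ^ k * orb dim X p) := by ring
          rw [h8] at h6
          exact nonneg_of_mul_nonneg_right h6 (by positivity)
        rw [← chiW_eq hG]
        have h9 : (-1 : ℚ) ^ m = (-1) ^ k * (-1) ^ (m - k) := by
          rw [← pow_add]
          congr 1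
          omega
        rw [h9]
        have h10 := mul_nonneg h7 h5
        calc (0 : ℚ) ≤ _ := h10
          _ = _ := by ring
    · rw [orb_odd hlink X hX p ho, zero_mul, mul_zero]
  exact_mod_cast h1

end Pool.Agent.Results.MP_9d0d86_gt.RightAngledTilings
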