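import Pool.Agent.Helper27.HZ.Final

/-!
# The Singer-Hopf sign in all even dimensions and the curvature operator of the second kind

The curvature operator of the second kind of a Riemannian manifold is the quadratic form
`kind2 (h) = -∑ R(e_i, e_k, e_j, e_l) h_ij h_kl` on symmetric tensors `h`; for constant curvature `c` it
is `c (|h|² - (tr h)²)`. Usually one restricts it to the traceless symmetric tensors.

`OnePos e R κ`: on some hyperplane of the space of all symmetric tensors `kind2` is at most its value
for constant curvature `-κ`. For `κ = 0` this says that `kind2` has at most one positive eigenvalue. If the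
hyperplane is the one of the traceless tensors, it says that the curvature operator of the second kind is
at most `-κ`.

`Mixed e R κ`: `R` is the sum of a curvature tensor whose usual curvature operator (on bivectors) is at most
`-κ` and of finitely many curvature tensors satisfying `OnePos` with `κ = 0`. Both the tensors with curvature
operator at most `-κ` and those with `OnePos e R κ` are of this kind.

Theorem. In every even dimension `2 m`, if `R` satisfies `Mixed e R κ` (in particular, if `OnePos e R κ`),
then `(-1)^m` times the Gauss-Bonnet-Chern integrand is at least its value for constant curvature `-κ`; it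
is positive if `kind2` is negative definite on a hyperplane. Integrated forms follow.

The proof (`Pool/Agent/Helper27/HY/`, `Pool/Agent/Helper27/HZ/` and files of other helpers which they import).
The integrand is, up to a positive factor and the sign `(-1)^m`, the expectation of the determinant of a
random matrix `i Ω + ∑_s (i g_0 A_0 + ∑_k g_k A_k)`, with independent standard Gaussian variables, symmetric
matrices `A_0`, `A_k` (in each group `s`) with `∑_k (x A_k x)² ≤ (x A_0 x)²`, and a real skew Gaussian matrix
`Ω`. The main point is that for fixed `Y` with positive definite imaginary part the expectation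
`f (Y) = E det (Y + ∑_s (i g_0 A_0 + ∑_k g_k A_k))` does not vanish. This is proved by induction on the size of
the matrices and an extremal argument: at a zero for which the trace of `∑_s A_0` is minimal, the first
and second derivatives of `f` contradict the Euler relation which comes from the homogeneity of the
determinant. The bound for `κ > 0` follows by differentiation with respect to `κ`.
-/

namespace Pool.Agent.Results.MP_9d0d86_gt.SecondKindAllDimensions

open Pool.Agent.W666.GB MeasureTheory
open Pool.Agent.Helper27.HY (OnePos OnePosStrict)
open Pool.Agent.Helper27.HZ (Mixed)

/-- The sign of the Gauss-Bonnet-Chern integrand in all even dimensions, for sums of curvature tensors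
with nonpositive curvature operator and curvature tensors for which the form of the curvature operator of
the second kind has at most one positive eigenvalue. -/
theorem result :
    -- the pointwise inequality
    (∀ (m : ℕ) (V : Type) [NormedAddCommGroup V] [InnerProductSpace ℝ V]
      (e : OrthonormalBasis (Fin m × Bool) ℝ V) (R : V → V → V → V → ℝ), AlgCurv R →
      (∀ κ : ℝ, 0 ≤ κ → Mixed e R κ → roundGB m κ ≤ (-1) ^ m * gbc e R) ∧
      (∀ κ : ℝ, 0 ≤ κ → OnePos e R κ → Mixed e R κ) ∧
      (OnePosStrict e R → 0 < (-1) ^ m * gbc e R)) ∧
    -- the integrated form
    (∀ (m : ℕ) (M : Type) [MeasurableSpace M] (μ : Measure M) (K : CurvField m M),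
      Integrable K.gb μ →
      (∀ κ : ℝ, 0 ≤ κ → (∀ p, Mixed (K.e p) (K.R p) κ) →
        ENNReal.ofReal (roundGB m κ) * μ Set.univ ≤
          ENNReal.ofReal ((-1) ^ m * ∫ p, K.gb p ∂μ)) ∧
      ((∀ p, Mixed (K.e p) (K.R p) 0) → 0 ≤ (-1) ^ m * ∫ p, K.gb p ∂μ ∧
        (μ {p | OnePosStrict (K.e p) (K.R p)} ≠ 0 → 0 < (-1) ^ m * ∫ p, K.gb p ∂μ))) :=
  Pool.Agent.Helper27.HZ.finalA

end Pool.Agent.Results.MP_9d0d86_gt.SecondKindAllDimensions
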