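import Pool.Agent.Helper27.HZ.Final

/-!
# The Singer-Hopf sign for submanifolds of arbitrary codimension

`extR β` is the part of the curvature tensor of a submanifold which comes from the second fundamental
form `β` (Gauss equation). `OpLe R κ`: the curvature operator of `R` on bivectors is at most `-κ`.

`Causal S`: `S = extR β - extR b` for symmetric bilinear forms `b` (real) and `β` (with values in `ℝᴺ`, with
arbitrary `N`) with `|β(x,x)| ≤ b(x,x)` for all `x`: the tensor of a second fundamental form with values in
the Lorentzian space `ℝ ⊕ ℝᴺ` for which `II(x,x)` is in the closed future light cone.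

`CausalSum R κ`: `R` is the sum of a curvature tensor with curvature operator at most `-κ` and of finitely
many tensors of this kind.

Theorem. (1) In every even dimension `2 m`, if `CausalSum R κ` and `κ ≥ 0`, then `(-1)^m` times the
Gauss-Bonnet-Chern integrand of `R` is at least its value for constant curvature `-κ`.
(2) The condition `CausalSum R κ` holds for the submanifolds, of any codimension, of a Riemannian
manifold whose curvature operator is at most `-c` (for instance a space of constant curvature `-c`) if the
second fundamental form satisfies `|II(x,x)|² ≤ (c - κ) |x|⁴` (normal curvatures at most `√(c - κ)`).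
(3) The integrated form.

The proof is described in `SecondKindAllDimensions.lean`.
-/

namespace Pool.Agent.Results.MP_9d0d86_gt.SubmanifoldsAnyCodimension

open Pool.Agent.W666.GB MeasureTheory
open Pool.Agent.Helper27.HZ (CausalSum OpLe SymMap extR)

/-- The sign of the Gauss-Bonnet-Chern integrand for submanifolds of arbitrary codimension and, more
generally, for sums of tensors of causal second fundamental forms and a nonpositive curvature
operator. -/
theorem result :
    -- the pointwise inequality
    (∀ (m : ℕ) (V : Type) [NormedAddCommGroup V] [InnerProductSpace ℝ V]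
      (e : OrthonormalBasis (Fin m × Bool) ℝ V) (R : V → V → V → V → ℝ) (κ : ℝ), 0 ≤ κ →
      CausalSum R κ → roundGB m κ ≤ (-1) ^ m * gbc e R) ∧
    -- submanifolds of spaces with curvature operator at most `-c`
    (∀ (m : ℕ) (V W : Type) [NormedAddCommGroup V] [InnerProductSpace ℝ V]
      [NormedAddCommGroup W] [InnerProductSpace ℝ W] [FiniteDimensional ℝ W]
      (_ : OrthonormalBasis (Fin m × Bool) ℝ V) (R R₁ : V → V → V → V → ℝ) (β : V → V → W)
      (c κ : ℝ), AlgCurv R₁ → OpLe R₁ c → SymMap β → 0 ≤ κ → κ ≤ c →
      (∀ x, ‖β x x‖ ^ 2 ≤ (c - κ) * ‖x‖ ^ 4) →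
      (∀ x y z w, R x y z w = R₁ x y z w + extR β x y z w) → CausalSum R κ) ∧
    -- the integrated form
    (∀ (m : ℕ) (M : Type) [MeasurableSpace M] (μ : Measure M) (K : CurvField m M),
      Integrable K.gb μ → ∀ κ : ℝ, 0 ≤ κ → (∀ p, CausalSum (K.R p) κ) →
        0 ≤ (-1) ^ m * ∫ p, K.gb p ∂μ ∧
        ENNReal.ofReal (roundGB m κ) * μ Set.univ ≤ ENNReal.ofReal ((-1) ^ m * ∫ p, K.gb p ∂μ)) :=
  Pool.Agent.Helper27.HZ.finalD

end Pool.Agent.Results.MP_9d0d86_gt.SubmanifoldsAnyCodimension
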